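import Mathlib
import Pool.Agent.Q259.IEPG

set_option autoImplicit false

open Matrix Finset Polynomial Pool.Agent.Q259.IEPG

namespace Pool.Agent.Results.MP_4cbb29_co.DoubleBroom

/-- The double broom `S^r_{m,n}`: a path on `r` vertices (`Fin r`) with `m` leaves (`Fin m`)
attached to its first vertex and `n` leaves (`Fin n`) attached to its last vertex. -/
def broom (r m n : ℕ) : SimpleGraph (Fin r ⊕ (Fin m ⊕ Fin n)) where
  Adj a b := match a, b with
    | Sum.inl i, Sum.inl j => i.val + 1 = j.val ∨ j.val + 1 = i.val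
    | Sum.inl i, Sum.inr (Sum.inl _) => i.val = 0
    | Sum.inr (Sum.inl _), Sum.inl i => i.val = 0
    | Sum.inl i, Sum.inr (Sum.inr _) => i.val + 1 = r
    | Sum.inr (Sum.inr _), Sum.inl i => i.val + 1 = r
    | Sum.inr _, Sum.inr _ => False
  symm := ⟨by
    rintro (i | i | i) (j | j | j) h <;> first
      | exact h
      | exact Or.symm h⟩
  loopless := ⟨by
    rintro (i | i | i) h
    · rcases h with h | h <;> omega
    · exact h
    · exact h⟩

/-- A balanced normalised vector with controlled products. -/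
theorem exists_u (m : ℕ) (hm : 2 ≤ m) : ∃ u : Fin m → ℝ, (∀ i, u i ≠ 0) ∧ (∀ i, |u i| < 1) ∧
    ∑ i, u i = 0 ∧ ∑ i, u i ^ 2 = 1 ∧ ∀ i j, i ≠ j → 0 < u i * u j ∨ (m : ℝ) * (u i * u j) = -1 := by
  obtain ⟨k, rfl⟩ : ∃ k, m = k + 1 := ⟨m - 1, by omega⟩
  have hk : 1 ≤ k := by omega
  have hk' : (1 : ℝ) ≤ k := by exact_mod_cast hk
  set s : ℝ := 1 / Real.sqrt (k * (k + 1)) with hs
  have hkk : (0 : ℝ) < k * (k + 1) := by positivity
  have hs0 : 0 < s := by rw [hs]; positivity
  have hs2 : s ^ 2 * (k * (k + 1)) = 1 := by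
    rw [hs, div_pow, Real.sq_sqrt hkk.le]; field_simp
  have hs2' : s * s = 1 / (k * (k + 1)) := by field_simp; linarith
  refine ⟨Fin.cons (-(k * s)) (fun _ => s), ?_, ?_, ?_, ?_, ?_⟩
  · intro i
    refine Fin.cases ?_ (fun j => ?_) i
    · rw [Fin.cons_zero]
      have : 0 < k * s := by positivity
      linarith
    · rw [Fin.cons_succ]; exact hs0.ne'
  · intro i
    refine Fin.cases ?_ (fun j => ?_) i
    · rw [Fin.cons_zero, abs_neg, abs_of_pos (by positivity)]
      by_contra h
      push Not at h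
      have h1 : 1 ≤ (k * s) ^ 2 := by nlinarith
      have h2 : (k * s) ^ 2 * (k + 1) = k := by linear_combination (k : ℝ) * hs2
      nlinarith
    · rw [Fin.cons_succ, abs_of_pos hs0]
      by_contra h
      push Not at h
      have h1 : 1 ≤ s ^ 2 := by nlinarith
      nlinarith
  · rw [Fin.sum_univ_succ, Fin.cons_zero]
    simp only [Fin.cons_succ]
    simp
  · rw [Fin.sum_univ_succ, Fin.cons_zero]
    simp only [Fin.cons_succ]
    simp only [Finset.sum_const, Finset.card_univ, Fintype.card_fin, nsmul_eq_mul]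
    linear_combination hs2
  · intro i j
    refine Fin.cases ?_ (fun i' => ?_) i <;> refine Fin.cases ?_ (fun j' => ?_) j
    · intro h; exact absurd rfl h
    · intro _; right
      rw [Fin.cons_zero, Fin.cons_succ]
      push_cast
      linear_combination -hs2
    · intro _; right
      rw [Fin.cons_zero, Fin.cons_succ]
      push_cast
      linear_combination -hs2
    · intro _; left
      rw [Fin.cons_succ, Fin.cons_succ]
      positivity

theorem sum_V {r m n : ℕ} (f : Fin r ⊕ (Fin m ⊕ Fin n) → ℝ) :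
    ∑ v, f v = ∑ i, f (Sum.inl i) + (∑ i, f (Sum.inr (Sum.inl i)) +
      ∑ i, f (Sum.inr (Sum.inr i))) := by
  rw [Fintype.sum_sum_type, Fintype.sum_sum_type]

theorem card_ge {r m n : ℕ} (hr : 2 ≤ r) (hm : 2 ≤ m) (hn : 2 ≤ n) :
    6 ≤ Fintype.card (Fin r ⊕ (Fin m ⊕ Fin n)) := by
  simp only [Fintype.card_sum, Fintype.card_fin]
  omega

theorem case2 (m n : ℕ) (hm : 2 ≤ m) (hn : 2 ≤ n) :
    qInv (broom 2 m n)ᶜ = 2 ∧ MB (broom 2 m n)ᶜ = 3 := by
  obtain ⟨u, hu0, hu1, husum, husq, -⟩ := exists_u m hm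
  obtain ⟨w, hw0, hw1, hwsum, hwsq, -⟩ := exists_u n hn
  have hm' : (2 : ℝ) ≤ m := by exact_mod_cast hm
  have hn' : (2 : ℝ) ≤ n := by exact_mod_cast hn
  set c : ℝ := m + n with hc
  set x0 : ℝ := Real.sqrt (c - 1) with hx0
  have hc1 : 0 < c - 1 := by rw [hc]; linarith
  have hx0pos : 0 < x0 := Real.sqrt_pos.mpr hc1
  have hx0sq : x0 ^ 2 = c - 1 := Real.sq_sqrt hc1.le
  have hx0sq' : x0 * x0 = c - 1 := by rw [← pow_two]; exact hx0sq
  have hprod : ∀ {k : ℕ} (z : Fin k → ℝ), (∀ i, |z i| < 1) → ∀ i j, z i * z j + 1 ≠ 0 := by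
    intro k z hz i j h
    have h1 : |z i * z j| < 1 := by
      rw [abs_mul]
      have := abs_nonneg (z i)
      have := abs_nonneg (z j)
      nlinarith [hz i, hz j]
    have h2 : z i * z j = -1 := by linarith
    rw [h2] at h1
    norm_num at h1
  refine concl (T := broom 2 m n) (Sum.inr (Sum.inl ⟨0, by omega⟩)) (Sum.inl 0) (Sum.inl 1)
    (Sum.inr (Sum.inr ⟨0, by omega⟩)) rfl (Or.inl rfl) rfl ?_ ?_ ?_ (by simp) (by simp) (by simp)
    (fun v => match v with
      | Sum.inl i => if i = 0 then ![x0, 0, 0] else ![0, x0, 0]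
      | Sum.inr (Sum.inl i) => ![0, u i, 1]
      | Sum.inr (Sum.inr j) => ![w j, 0, 1]) c (by linarith) ?_ ?_ (card_ge (by norm_num) hm hn)
  · intro h; exact absurd h (by simp [broom])
  · intro h; exact h
  · intro h; exact absurd h (by simp [broom])
  · intro a b
    rw [sum_V, Fin.sum_univ_two]
    fin_cases a <;> fin_cases b <;> simp [hx0sq', ← pow_two, husum, hwsum, husq, hwsq, hx0sq]
    linarith
  · rintro (i | i | i) (j | j | j) hij
    · fin_cases i <;> fin_cases j <;> simp [broom, vec3_dotProduct] at hij ⊢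
    · fin_cases i <;> simp [broom, vec3_dotProduct, hx0pos.ne', hu0]
    · fin_cases i <;> simp [broom, vec3_dotProduct, hx0pos.ne', hw0]
    · fin_cases j <;> simp [broom, vec3_dotProduct, hx0pos.ne', hu0]
    · simp only [broom, vec3_dotProduct, iff_false]
      have hne : i ≠ j := fun h => hij (by rw [h])
      simpa using hprod u hu1 i j
    · simp [broom, vec3_dotProduct]
    · fin_cases j <;> simp [broom, vec3_dotProduct, hx0pos.ne', hw0]
    · simp [broom, vec3_dotProduct]
    · simp only [broom, vec3_dotProduct, iff_false]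
      simpa using hprod w hw1 i j

theorem case3 (m n : ℕ) (hm : 2 ≤ m) (hn : 2 ≤ n) :
    qInv (broom 3 m n)ᶜ = 2 ∧ MB (broom 3 m n)ᶜ = 3 := by
  obtain ⟨u, hu0, hu1, husum, husq, hup⟩ := exists_u m hm
  obtain ⟨w, hw0, hw1, hwsum, hwsq, hwp⟩ := exists_u n hn
  have hm' : (2 : ℝ) ≤ m := by exact_mod_cast hm
  have hn' : (2 : ℝ) ≤ n := by exact_mod_cast hn
  set d : ℝ := m + n with hd
  have hd4 : 4 ≤ d := by rw [hd]; linarith
  set x : ℝ := Real.sqrt d with hx
  have hxpos : 0 < x := Real.sqrt_pos.mpr (by linarith)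
  have hxx : x * x = d := Real.mul_self_sqrt (by linarith)
  set y1 : ℝ := 1 / (2 * x) with hy1
  have hy1pos : 0 < y1 := by rw [hy1]; positivity
  have hxy1 : x * y1 = 1 / 2 := by rw [hy1]; field_simp
  have hy1sq : y1 * y1 < 1 := by
    have : y1 * y1 * (4 * d) = 1 := by
      rw [← hxx]; nlinarith
    nlinarith
  set y2 : ℝ := Real.sqrt (d - y1 * y1) with hy2
  have hy2pos : 0 < y2 := Real.sqrt_pos.mpr (by linarith)
  have hyy : y2 * y2 = d - y1 * y1 := Real.mul_self_sqrt (by linarith)
  have hprod : ∀ {k : ℕ} (hk : (0 : ℝ) < k) (hkd : (k : ℝ) < d) (z : Fin k → ℝ),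
      (∀ i j, i ≠ j → 0 < z i * z j ∨ (k : ℝ) * (z i * z j) = -1) → ∀ i j, i ≠ j →
      z i * z j * d + 1 ≠ 0 := by
    intro k hk hkd z hz i j hij h
    rcases hz i j hij with h1 | h1
    · have : 0 < z i * z j * d := mul_pos h1 (by linarith)
      linarith
    · have h2 : (k : ℝ) * (z i * z j * d + 1) = k - d := by linear_combination d * h1
      rw [h, mul_zero] at h2
      linarith
  have hprod2 : ∀ i j, u i * w j / 2 + 1 ≠ 0 := by
    intro i j h
    have h1 : |u i * w j| < 1 := by
      rw [abs_mul]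
      have := abs_nonneg (u i)
      have := abs_nonneg (w j)
      nlinarith [hu1 i, hw1 j]
    have h2 : u i * w j = -2 := by linarith
    rw [h2] at h1
    norm_num at h1
  have h2u : ∑ i, (u i * x) ^ 2 = d := by
    simp only [mul_pow]; rw [← Finset.sum_mul, husq, one_mul, pow_two, hxx]
  have h2w : ∑ i, (w i * y2) ^ 2 = y2 * y2 := by
    simp only [mul_pow]; rw [← Finset.sum_mul, hwsq]; ring
  have h2w' : ∑ i, (w i * y1) ^ 2 = y1 * y1 := by
    simp only [mul_pow]; rw [← Finset.sum_mul, hwsq]; ring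
  have h3w : ∑ i, (w i * y2) * (w i * y1) = y2 * y1 := by
    have : ∀ i, (w i * y2) * (w i * y1) = w i ^ 2 * (y2 * y1) := fun i => by ring
    simp only [this]; rw [← Finset.sum_mul, hwsq, one_mul]
  have h3w' : ∑ i, (w i * y1) * (w i * y2) = y2 * y1 := by
    have : ∀ i, (w i * y1) * (w i * y2) = w i ^ 2 * (y2 * y1) := fun i => by ring
    simp only [this]; rw [← Finset.sum_mul, hwsq, one_mul]
  refine concl (T := broom 3 m n) (Sum.inr (Sum.inl ⟨0, by omega⟩)) (Sum.inl 0) (Sum.inl 1)
    (Sum.inl 2) rfl (Or.inl rfl) (Or.inl rfl) ?_ ?_ ?_ (by simp) (by simp) (by simp)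
    (fun v => match v with
      | Sum.inl i => if i = 0 then ![x, 0, 0] else if i = 1 then ![0, 0, x] else ![y1, y2, 0]
      | Sum.inr (Sum.inl i) => ![0, u i * x, 1]
      | Sum.inr (Sum.inr j) => ![-(w j * y2), w j * y1, 1]) (2 * d) (by linarith) ?_ ?_
      (card_ge (by norm_num) hm hn)
  · intro h; exact absurd h (by simp [broom])
  · intro h; exact absurd h (by simp [broom])
  · intro h; exact absurd h (by simp [broom])
  · intro a b
    rw [sum_V, Fin.sum_univ_three]
    fin_cases a <;> fin_cases b <;>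
      simp [← pow_two, ← Finset.sum_mul, husum, hwsum, h2u, h2w, h2w', h3w, h3w']
    all_goals first
      | linarith
      | linear_combination hyy
      | ring1
  · rintro (i | i | i) (j | j | j) hij
    · fin_cases i <;> fin_cases j <;> simp [broom] at hij ⊢
      · exact ⟨hxpos.ne', hy1pos.ne'⟩
      · exact ⟨hy1pos.ne', hxpos.ne'⟩
    · fin_cases i <;> simp [broom, hxpos.ne', hu0, hy2pos.ne']
    · fin_cases i <;> simp [broom, hxpos.ne', hw0, hy2pos.ne']
      ring
    · fin_cases j <;> simp [broom, hxpos.ne', hu0, hy2pos.ne']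
    · simp only [broom, vec3_dotProduct, iff_false]
      have hne : i ≠ j := fun h => hij (by rw [h])
      have := hprod (by linarith) (by rw [hd]; linarith) u hup i j hne
      intro h
      apply this
      simp at h
      linear_combination h - (u i * u j) * hxx
    · simp [broom]
      intro h
      apply hprod2 i j
      linear_combination h - (u i * w j) * hxy1
    · fin_cases j <;> simp [broom, hxpos.ne', hw0, hy2pos.ne']
      ring
    · simp [broom]
      intro h
      apply hprod2 j i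
      linear_combination h - (u j * w i) * hxy1
    · simp only [broom, vec3_dotProduct, iff_false]
      have hne : i ≠ j := fun h => hij (by rw [h])
      have := hprod (by linarith) (by rw [hd]; linarith) w hwp i j hne
      intro h
      apply this
      simp at h
      linear_combination h - (w i * w j) * hyy

theorem case4 (m n : ℕ) (hm : 2 ≤ m) (hn : 2 ≤ n) :
    qInv (broom 4 m n)ᶜ = 2 ∧ MB (broom 4 m n)ᶜ = 3 := by
  obtain ⟨u, hu0, hu1, husum, husq, -⟩ := exists_u m hm
  obtain ⟨w, hw0, hw1, hwsum, hwsq, -⟩ := exists_u n hn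
  have hm' : (2 : ℝ) ≤ m := by exact_mod_cast hm
  have hn' : (2 : ℝ) ≤ n := by exact_mod_cast hn
  set q : ℝ := 1 / Real.sqrt m with hq
  set s : ℝ := 1 / Real.sqrt n with hs
  have hqpos : 0 < q := by rw [hq]; positivity
  have hspos : 0 < s := by rw [hs]; positivity
  have hqq : (m : ℝ) * (q * q) = 1 := by
    have : Real.sqrt m * Real.sqrt m = m := Real.mul_self_sqrt (by linarith)
    have h0 : Real.sqrt m ≠ 0 := by positivity
    rw [hq]
    field_simp
    rw [pow_two, this]
  have hss : (n : ℝ) * (s * s) = 1 := by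
    have : Real.sqrt n * Real.sqrt n = n := Real.mul_self_sqrt (by linarith)
    have h0 : Real.sqrt n ≠ 0 := by positivity
    rw [hs]
    field_simp
    rw [pow_two, this]
  have hq1 : q * q ≤ 1 := by nlinarith
  have hs1 : s * s ≤ 1 := by nlinarith
  set w0 : ℝ := Real.sqrt (2 - q * q / 9) with hw0'
  set z0 : ℝ := Real.sqrt (2 - s * s / 9) with hz0'
  have hw0pos : 0 < w0 := Real.sqrt_pos.mpr (by linarith)
  have hz0pos : 0 < z0 := Real.sqrt_pos.mpr (by linarith)
  have hw0sq : w0 * w0 = 2 - q * q / 9 := Real.mul_self_sqrt (by linarith)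
  have hz0sq : z0 * z0 = 2 - s * s / 9 := Real.mul_self_sqrt (by linarith)
  have hsm : ∀ {k : ℕ} (z : Fin k → ℝ), (∀ i, |z i| < 1) → ∀ i, -1 < z i ∧ z i < 1 :=
    fun z hz i => abs_lt.mp (hz i)
  have hprod : ∀ {k : ℕ} (z : Fin k → ℝ), (∀ i, |z i| < 1) → ∀ i j, -1 < z i * z j := by
    intro k z hz i j
    have h1 : |z i * z j| < 1 := by
      rw [abs_mul]
      have := abs_nonneg (z i)
      have := abs_nonneg (z j)
      nlinarith [hz i, hz j]
    exact (abs_lt.mp h1).1
  have hlin : ∀ (z : ℝ), 0 < z → ∀ y : ℝ, |y| < 1 → ¬ z * (y / 3) + -z = 0 := by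
    intro z hz y hy h
    have h2 : z * (y / 3 - 1) = 0 := by linear_combination h
    rcases mul_eq_zero.mp h2 with h3 | h3
    · exact hz.ne' h3
    · have := (abs_lt.mp hy).2
      linarith
  have e1 : ∑ i, q * (u i / 3) = 0 := by
    rw [← Finset.mul_sum, ← Finset.sum_div, husum]; ring
  have e2 : ∑ i, s * (w i / 3) = 0 := by
    rw [← Finset.mul_sum, ← Finset.sum_div, hwsum]; ring
  have e3 : ∑ i, (q * (u i / 3)) ^ 2 = q * q / 9 := by
    have : ∀ i, (q * (u i / 3)) ^ 2 = (q * q / 9) * u i ^ 2 := fun i => by ring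
    simp only [this]; rw [← Finset.mul_sum, husq, mul_one]
  have e4 : ∑ i, (s * (w i / 3)) ^ 2 = s * s / 9 := by
    have : ∀ i, (s * (w i / 3)) ^ 2 = (s * s / 9) * w i ^ 2 := fun i => by ring
    simp only [this]; rw [← Finset.mul_sum, hwsq, mul_one]
  refine concl (T := broom 4 m n) (Sum.inl 0) (Sum.inl 1) (Sum.inl 2) (Sum.inl 3)
    (Or.inl rfl) (Or.inl rfl) (Or.inl rfl) ?_ ?_ ?_ (by simp) (by simp) (by simp)
    (fun v => match v with
      | Sum.inl i => if i = 0 then ![0, 1, 1] else if i = 1 then ![w0, 0, 0] else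
          if i = 2 then ![0, z0, 0] else ![1, 0, 1]
      | Sum.inr (Sum.inl i) => ![q * (u i / 3), q, -q]
      | Sum.inr (Sum.inr j) => ![s, s * (w j / 3), -s]) 4 (by norm_num) ?_ ?_
      (card_ge (by norm_num) hm hn)
  · intro h; exact absurd h (by simp [broom])
  · intro h; exact absurd h (by simp [broom])
  · intro h; exact absurd h (by simp [broom])
  · intro a b
    rw [sum_V, Fin.sum_univ_four]
    fin_cases a <;> fin_cases b <;>
      simp [← pow_two, ← Finset.sum_mul, ← Finset.mul_sum, e1, e2, e3, e4]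
    · linear_combination hw0sq + hss
    · linear_combination -hss
    · linear_combination hz0sq + hqq
    · linear_combination -hqq
    · linear_combination -hss
    · linear_combination -hqq
    · linear_combination hqq + hss
  · rintro (i | i | i) (j | j | j) hij
    · fin_cases i <;> fin_cases j <;> simp [broom] at hij ⊢
      · exact hz0pos.ne'
      · exact hw0pos.ne'
      · exact hz0pos.ne'
      · exact hw0pos.ne'
    · fin_cases i <;> simp [broom]
      · exact ⟨hw0pos.ne', hqpos.ne', hu0 j⟩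
      · exact ⟨hz0pos.ne', hqpos.ne'⟩
      · exact hlin q hqpos _ (hu1 j)
    · fin_cases i <;> simp [broom]
      · exact hlin s hspos _ (hw1 j)
      · exact ⟨hw0pos.ne', hspos.ne'⟩
      · exact ⟨hz0pos.ne', hspos.ne', hw0 j⟩
    · fin_cases j <;> simp [broom]
      · exact ⟨⟨hqpos.ne', hu0 i⟩, hw0pos.ne'⟩
      · exact ⟨hqpos.ne', hz0pos.ne'⟩
      · exact hlin q hqpos _ (hu1 i)
    · simp only [broom, vec3_dotProduct, iff_false]
      intro h
      simp at h
      have h1 := hprod u hu1 i j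
      have h2 : q * q * (u i * u j / 9 + 2) = 0 := by linear_combination h
      rcases mul_eq_zero.mp h2 with h3 | h3
      · exact (mul_pos hqpos hqpos).ne' h3
      · linarith
    · simp [broom]
      intro h
      have h2 : q * s * (u i / 3 + w j / 3 + 1) = 0 := by linear_combination h
      rcases mul_eq_zero.mp h2 with h3 | h3
      · exact (mul_pos hqpos hspos).ne' h3
      · have := hsm u hu1 i
        have := hsm w hw1 j
        linarith
    · fin_cases j <;> simp [broom]
      · exact hlin s hspos _ (hw1 i)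
      · exact ⟨hspos.ne', hw0pos.ne'⟩
      · exact ⟨⟨hspos.ne', hw0 i⟩, hz0pos.ne'⟩
    · simp [broom]
      intro h
      have h2 : q * s * (u j / 3 + w i / 3 + 1) = 0 := by linear_combination h
      rcases mul_eq_zero.mp h2 with h3 | h3
      · exact (mul_pos hqpos hspos).ne' h3
      · have := hsm u hu1 j
        have := hsm w hw1 i
        linarith
    · simp only [broom, vec3_dotProduct, iff_false]
      intro h
      simp at h
      have h1 := hprod w hw1 i j
      have h2 : s * s * (w i * w j / 9 + 2) = 0 := by linear_combination h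
      rcases mul_eq_zero.mp h2 with h3 | h3
      · exact (mul_pos hspos hspos).ne' h3
      · linarith

/-- For `r ∈ {2,3,4}` and `m, n ≥ 2` the complement of the double broom `S^r_{m,n}` has
`q = 2` and `MB = 3`. -/
theorem result : ∀ r : ℕ, 2 ≤ r → r ≤ 4 → ∀ m n : ℕ, 1 < m → 1 < n →
    qInv (broom r m n)ᶜ = 2 ∧ MB (broom r m n)ᶜ = 3 := by
  intro r hr1 hr2 m n hm hn
  interval_cases r
  · exact case2 m n hm hn
  · exact case3 m n hm hn
  · exact case4 m n hm hn

end Pool.Agent.Results.MP_4cbb29_co.DoubleBroom
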